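import Pool.Agent.H41.T1.S5

/-!
# T1, FAMLK: the lower bound for the size of the family
-/

set_option autoImplicit false

namespace Pool.T1

open Polynomial Matrix Pool.HYP Pool.TOW Pool.AVS IsDedekindDomain

private theorem fml_sum (N h : ℕ) :
    2 * ∑ i ∈ Finset.Icc 1 N, (i * h + 1) = N * (N + 1) * h + 2 * N := by
  induction N with
  | zero => simp
  | succ N ih =>
    rw [Finset.sum_Icc_succ_top (by omega), mul_add, ih]
    ring

private theorem fml_sum' (g h : ℕ) :
    ∑ i ∈ Finset.Icc 1 (2 * g + 1), (i * h + 1) =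
      h * ((2 * g + 1) * (g + 1)) + (2 * g + 1) := by
  have h1 := fml_sum (2 * g + 1) h
  have h2 : (2 * g + 1) * (2 * g + 1 + 1) * h + 2 * (2 * g + 1) =
      2 * (h * ((2 * g + 1) * (g + 1)) + (2 * g + 1)) := by ring
  omega

/-- **FAMLK.** -/
theorem famlk (hF : FAMKStmt) (hA : ALLKStmt) : FAMLKStmt := by
  intro R _ _ K _ _ _ O π hG hU hX c g hL hg D hD
  have hfin : ∀ m : ℤ, (Lm R O π m).Finite := fun m => (hU m).1
  obtain ⟨h₀, hh⟩ := hF R K O π hG hfin hX g D hg hD
  refine ⟨h₀, fun h hh0 => ?_⟩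
  have h1 := hh h hh0
  have h2 := (hA R K O π hG hfin g h).2
  have hq : 0 < qq O := by
    have := hG.res
    exact Nat.card_pos
  have h3 : qq O ^ (∑ i ∈ Finset.Icc 1 (2 * g + 1), (i * h + 1)) ≤
      c ^ (2 * g + 1) * (All R O π g h).ncard := by
    rw [h2, ← Finset.prod_pow_eq_pow_sum]
    have h4 : c ^ (2 * g + 1) = ∏ i ∈ Finset.Icc 1 (2 * g + 1), c := by
      rw [Finset.prod_const, Nat.card_Icc, Nat.add_sub_cancel]
    rw [h4, ← Finset.prod_mul_distrib]
    exact Finset.prod_le_prod' fun i _ => hL (i * h)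
  rw [fml_sum', ← h1, pow_add] at h3
  refine Nat.le_of_mul_le_mul_right (le_trans h3 (le_of_eq ?_)) (pow_pos hq (2 * g + 1))
  ring

end Pool.T1
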