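import Pool.Agent.H14.T1.S3
import Pool.Agent.H30.T1.Loc

/-!
# T1, QSK: from the completion to `K`
-/

set_option autoImplicit false
set_option linter.unusedSectionVars false

namespace Pool.T1

open Polynomial Matrix Pool.HYP Pool.TOW Pool.AVS IsDedekindDomain

namespace QSKa

section Val

variable {L : Type} [Field L] {O : ValuationSubring L} {π : L}

/-- Congruent modulo `π`. -/
theorem pinv (hL : Loc L O π) : π⁻¹ ∉ O := by
  rw [hL.unif π hL.pi_mem hL.pi_ne, div_self hL.pi_ne]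
  exact O.one_mem

theorem div_mem_of {x : L} (hL : Loc L O π) (h : x / π ∈ O) : x ∈ O := by
  have h1 : x = x / π * π := by rw [div_mul_cancel₀ _ hL.pi_ne]
  rw [h1]
  exact O.mul_mem _ _ h hL.pi_mem

theorem ui_cong (hL : Loc L O π) {x y : L} (hx : UI (O : Set L) x) (hy : y ∈ O)
    (h : (x - y) / π ∈ O) : UI (O : Set L) y := by
  obtain ⟨hx0, hx1, hx2⟩ := hx
  have h1 : y / π ∉ O := by
    intro h2
    have h3 : x / π ∈ O := by
      have h4 : x / π = (x - y) / π + y / π := by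
        rw [← add_div, sub_add_cancel]
      rw [h4]
      exact O.add_mem _ _ h h2
    exact (hL.unif x hx1 hx0).2 h3 hx2
  have hy0 : y ≠ 0 := by
    rintro rfl
    exact h1 (by rw [zero_div]; exact O.zero_mem)
  refine ⟨hy0, hy, ?_⟩
  by_contra h2
  exact h1 ((hL.unif y hy hy0).1 h2)

theorem det_in {n : ℕ} {M : Matrix (Fin n) (Fin n) L} (hM : MIn (O : Set L) M) :
    M.det ∈ O := by
  have h1 : M = (Matrix.of fun i j => (⟨M i j, hM i j⟩ : O)).map O.subtype := by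
    ext i j
    rfl
  rw [h1, ← RingHom.mapMatrix_apply, ← RingHom.map_det]
  exact Subtype.property _

theorem det_cong (hL : Loc L O π) {n : ℕ} {M N : Matrix (Fin n) (Fin n) L}
    (hM : MIn (O : Set L) M) (hN : MIn (O : Set L) N) (h : ∀ i j, (M i j - N i j) / π ∈ O) :
    (M.det - N.det) / π ∈ O := by
  obtain ⟨M₀, hM₀⟩ : ∃ M₀ : Matrix (Fin n) (Fin n) O, ∀ i j, (M₀ i j : L) = M i j :=
    ⟨Matrix.of fun i j => (⟨M i j, hM i j⟩ : O), fun i j => rfl⟩
  obtain ⟨N₀, hN₀⟩ : ∃ N₀ : Matrix (Fin n) (Fin n) O, ∀ i j, (N₀ i j : L) = N i j :=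
    ⟨Matrix.of fun i j => (⟨N i j, hN i j⟩ : O), fun i j => rfl⟩
  have hM1 : M = M₀.map O.subtype := by
    ext i j
    exact (hM₀ i j).symm
  have hN1 : N = N₀.map O.subtype := by
    ext i j
    exact (hN₀ i j).symm
  obtain ⟨p, hp⟩ : ∃ p : O, (p : L) = π := ⟨⟨π, hL.pi_mem⟩, rfl⟩
  have h2 : M₀.map (Ideal.Quotient.mk (Ideal.span {p})) =
      N₀.map (Ideal.Quotient.mk (Ideal.span {p})) := by
    ext i j
    rw [Matrix.map_apply, Matrix.map_apply, Ideal.Quotient.eq, Ideal.mem_span_singleton']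
    refine ⟨⟨(M i j - N i j) / π, h i j⟩, Subtype.ext ?_⟩
    show (M i j - N i j) / π * (p : L) = (M₀ i j : L) - (N₀ i j : L)
    rw [hp, hM₀, hN₀, div_mul_cancel₀ _ hL.pi_ne]
  have h3 : Ideal.Quotient.mk (Ideal.span {p}) M₀.det =
      Ideal.Quotient.mk (Ideal.span {p}) N₀.det := by
    rw [RingHom.map_det, RingHom.map_det, RingHom.mapMatrix_apply, RingHom.mapMatrix_apply, h2]
  rw [Ideal.Quotient.eq, Ideal.mem_span_singleton'] at h3
  obtain ⟨c, hc⟩ := h3
  have h4 : M.det - N.det = (c : L) * π := by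
    rw [hM1, hN1, ← RingHom.mapMatrix_apply, ← RingHom.mapMatrix_apply, ← RingHom.map_det,
      ← RingHom.map_det, ← hp]
    have h5 := congrArg (fun z : O => (z : L)) hc
    exact h5.symm
  rw [h4, mul_div_cancel_right₀ _ hL.pi_ne]
  exact c.2

theorem min_mul {n : ℕ} {A B : Matrix (Fin n) (Fin n) L}
    (hA : MIn (O : Set L) A) (hB : MIn (O : Set L) B) : MIn (O : Set L) (A * B) := by
  intro i j
  rw [Matrix.mul_apply]
  exact O.toSubring.sum_mem fun k _ => O.mul_mem _ _ (hA i k) (hB k j)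

theorem min_add {n : ℕ} {A B : Matrix (Fin n) (Fin n) L}
    (hA : MIn (O : Set L) A) (hB : MIn (O : Set L) B) : MIn (O : Set L) (A + B) :=
  fun i j => O.add_mem _ _ (hA i j) (hB i j)

theorem min_tr {n : ℕ} {A : Matrix (Fin n) (Fin n) L}
    (hA : MIn (O : Set L) A) : MIn (O : Set L) Aᵀ := fun i j => hA j i

theorem min_smul {n : ℕ} {A : Matrix (Fin n) (Fin n) L} {c : L} (hc : c ∈ O)
    (hA : MIn (O : Set L) A) : MIn (O : Set L) (c • A) := fun i j => O.mul_mem _ _ hc (hA i j)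

/-- A common denominator. -/
theorem den {ι : Type} (s : Finset ι) (x : ι → L) :
    ∃ a : L, a ≠ 0 ∧ a ∈ O ∧ ∀ i ∈ s, a * x i ∈ O := by
  classical
  induction s using Finset.induction_on with
  | empty => exact ⟨1, one_ne_zero, O.one_mem, fun i hi => absurd hi (Finset.notMem_empty i)⟩
  | insert b s hb ih =>
    obtain ⟨a, ha0, ha, has⟩ := ih
    by_cases hx : x b ∈ O
    · refine ⟨a, ha0, ha, fun i hi => ?_⟩
      rcases Finset.mem_insert.1 hi with rfl | hi
      · exact O.mul_mem _ _ ha hx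
      · exact has i hi
    · have hx0 : x b ≠ 0 := fun h => hx (by rw [h]; exact O.zero_mem)
      have hx1 : (x b)⁻¹ ∈ O := (O.mem_or_inv_mem (x b)).resolve_left hx
      refine ⟨a * (x b)⁻¹, mul_ne_zero ha0 (inv_ne_zero hx0), O.mul_mem _ _ ha hx1,
        fun i hi => ?_⟩
      rcases Finset.mem_insert.1 hi with rfl | hi
      · rw [mul_assoc, inv_mul_cancel₀ hx0, mul_one]
        exact ha
      · rw [mul_right_comm]
        exact O.mul_mem _ _ (has i hi) hx1

end Val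

section Main

variable {R : Type} [CommRing R] [IsDedekindDomain R] {K : Type} [Field K] [Algebra R K]
  [IsFractionRing R K] {P : HeightOneSpectrum R}

/-- The power of a prime in a principal ideal. -/
theorem fac (I : Ideal R) (hP : I.IsPrime) (hI0 : I ≠ ⊥) (a : R) (ha0 : a ≠ 0) :
    ∃ (s : ℕ) (m : R), m ∉ I ∧
    a ∈ I ^ s ∧ (∀ c ∈ I ^ s, m * c ∈ Ideal.span {a}) ∧ ∀ c ∈ I ^ (s + 1), m * c ∈ I * Ideal.span {a} := by
  have h0 : Ideal.span {a} ≠ (0 : Ideal R) := by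
    rw [Ideal.zero_eq_bot, Ne, Ideal.span_singleton_eq_bot]
    exact ha0
  obtain ⟨s, J, hJ, hs⟩ := WfDvdMonoid.max_power_factor h0 
    (((Ideal.prime_iff_isPrime hI0).2 hP).irreducible)
  have hJ' : ¬ J ≤ I := fun h => hJ (Ideal.dvd_iff_le.2 h)
  obtain ⟨m, hm, hmP⟩ := SetLike.not_le_iff_exists.1 hJ'
  refine ⟨s, m, hmP, ?_, fun c hc => ?_, fun c hc => ?_⟩
  · have h1 : Ideal.span {a} ≤ I ^ s := by
      rw [hs]
      exact (Ideal.mul_le_left : I ^ s * J ≤ I ^ s)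
    exact h1 (Ideal.mem_span_singleton_self a)
  · rw [hs, mul_comm m c]
    exact Ideal.mul_mem_mul hc hm
  · have h4 : I * Ideal.span {a} = J * I ^ (s + 1) := by
      rw [hs, pow_succ', ← mul_assoc, mul_comm J]
    rw [h4]
    exact Ideal.mul_mem_mul hm hc

/-- An element which is not regular at `P` has an inverse in the maximal ideal. -/
theorem rp_or (x : K) : x ∈ RP K P ∨
    ∃ m : R, m ∉ P.asIdeal ∧ ∃ c ∈ P.asIdeal, algebraMap R K m = algebraMap R K c * x := by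
  by_cases hx0 : x = 0
  · left
    rw [hx0]
    exact rp_zero
  obtain ⟨a, b, hb, hab⟩ := IsFractionRing.div_surjective (A := R) x
  have hb0 : b ≠ 0 := nonZeroDivisors.ne_zero hb
  have ha0 : a ≠ 0 := by
    rintro rfl
    rw [map_zero, zero_div] at hab
    exact hx0 hab.symm
  have hbK : algebraMap R K b ≠ 0 := alg_ne hb0
  obtain ⟨s, m, hm, has, hs1, hs2⟩ := fac P.asIdeal P.isPrime P.ne_bot a ha0
  obtain ⟨t, m', hm', hbt, ht1, ht2⟩ := fac P.asIdeal P.isPrime P.ne_bot b hb0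
  rcases le_or_gt t s with hts | hts
  · left
    obtain ⟨c, hc⟩ := Ideal.mem_span_singleton'.1 (ht1 a (Ideal.pow_le_pow_right hts has))
    refine ⟨m', hm', c, ?_⟩
    rw [← hab, mul_div_assoc', ← map_mul, ← hc, map_mul, mul_div_cancel_right₀ _ hbK]
  · right
    obtain ⟨c, hc, hca⟩ := Ideal.mem_mul_span_singleton.1
      (hs2 b (Ideal.pow_le_pow_right hts hbt))
    refine ⟨m, hm, c, hc, ?_⟩
    rw [← hab, mul_div_assoc', ← map_mul, hca, map_mul, mul_div_cancel_right₀ _ hbK]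

variable {ϖ : R} {L : Type} [Field L] {O' : ValuationSubring L} {ι : K →+* L}

theorem rp_iff (hC : CompP P ϖ L O' ι) (x : K) : x ∈ RP K P ↔ ι x ∈ O' := by
  have hπ := hC.loc.pi_ne
  have hunit : ∀ m : R, m ∉ P.asIdeal → (ι (algebraMap R K m))⁻¹ ∈ O' := by
    intro m hm
    by_contra h
    have hm0 : ι (algebraMap R K m) ≠ 0 := by
      intro h0
      rw [h0, _root_.inv_zero] at h
      exact h O'.zero_mem
    exact hm ((hC.mem m).1 ((hC.loc.unif _ (hC.int m) hm0).1 h))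
  have hne : ∀ m : R, m ∉ P.asIdeal → ι (algebraMap R K m) ≠ 0 := by
    intro m hm h0
    refine hm ((hC.mem m).1 ?_)
    rw [h0, zero_div]
    exact O'.zero_mem
  constructor
  · rintro ⟨m, hm, a, ha⟩
    have h1 : ι x = ι (algebraMap R K a) * (ι (algebraMap R K m))⁻¹ := by
      rw [← ha, map_mul, mul_comm, ← mul_assoc, inv_mul_cancel₀ (hne m hm), one_mul]
    rw [h1]
    exact O'.mul_mem _ _ (hC.int a) (hunit m hm)
  · intro hx
    rcases rp_or (P := P) x with h | ⟨m, hm, c, hc, hmc⟩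
    · exact h
    exfalso
    refine hm ((hC.mem m).1 ?_)
    rw [hmc, map_mul, mul_div_right_comm]
    exact O'.mul_mem _ _ ((hC.mem c).2 hc) hx

theorem ui_iff (hC : CompP P ϖ L O' ι) (x : K) :
    UI (RP K P) x ↔ UI (O' : Set L) (ι x) := by
  have h1 : x ≠ 0 ↔ ι x ≠ 0 := (map_ne_zero ι).symm
  have h2 := rp_iff hC x
  have h3 := rp_iff hC x⁻¹
  rw [map_inv₀] at h3
  exact and_congr h1 (and_congr h2 h3)

theorem div_iff (hC : CompP P ϖ L O' ι) (x : K) :
    x / algebraMap R K ϖ ∈ RP K P ↔ ι x / ι (algebraMap R K ϖ) ∈ O' := by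
  rw [rp_iff hC, map_div₀]

/-- The approximation. -/
theorem approx (hC : CompP P ϖ L O' ι) {n : ℕ} (A : Matrix (Fin n) (Fin n) K)
    (k : Matrix (Fin n) (Fin n) L) (hk : k.det ≠ 0) (hB : MIn (O' : Set L) (kᵀ * A.map ι * k)) :
    ∃ (k' : Matrix (Fin n) (Fin n) K) (C : Matrix (Fin n) (Fin n) L), k'.det ≠ 0 ∧
      MIn (O' : Set L) C ∧
      (k'ᵀ * A * k').map ι = kᵀ * A.map ι * k + (ι (algebraMap R K ϖ)) ^ 2 • C := by
  have hL := hC.loc
  have hπ := hL.pi_ne
  obtain ⟨π, hπdef⟩ : ∃ π : L, π = ι (algebraMap R K ϖ) := ⟨_, rfl⟩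
  rw [← hπdef] at hL hπ ⊢
  obtain ⟨a, ha0, haO, ha⟩ := den (O := O') (Finset.univ : Finset (Fin n × Fin n))
    (fun z => k⁻¹ z.1 z.2)
  have haπ : a * π ^ 2 ≠ 0 := mul_ne_zero ha0 (pow_ne_zero 2 hπ)
  choose k' hk' using fun (i j : Fin n) => hC.cpl.dense (k i j) (a * π ^ 2) haπ
  have hkm : (Matrix.of k').map ι = k * (1 + π ^ 2 • (Matrix.of fun i j =>
      ∑ l, (a * k⁻¹ i l) * ((ι (k' l j) - k l j) / (a * π ^ 2)))) := by
    have h1 : k * (π ^ 2 • (Matrix.of fun i j =>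
        ∑ l, (a * k⁻¹ i l) * ((ι (k' l j) - k l j) / (a * π ^ 2)))) =
        (Matrix.of k').map ι - k := by
      have h2 : (π ^ 2 • (Matrix.of fun i j =>
        ∑ l, (a * k⁻¹ i l) * ((ι (k' l j) - k l j) / (a * π ^ 2)))) =
          k⁻¹ * ((Matrix.of k').map ι - k) := by
        ext i j
        rw [Matrix.smul_apply, Matrix.of_apply, Matrix.mul_apply, smul_eq_mul, Finset.mul_sum]
        refine Finset.sum_congr rfl fun l _ => ?_
        rw [Matrix.sub_apply, Matrix.map_apply, Matrix.of_apply]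
        field_simp
      rw [h2, ← mul_assoc, Matrix.mul_nonsing_inv _ (isUnit_iff_ne_zero.2 hk), one_mul]
    rw [mul_add, mul_one, h1]
    abel
  obtain ⟨E, hE, hEdef⟩ : ∃ E : Matrix (Fin n) (Fin n) L, MIn (O' : Set L) E ∧
      (Matrix.of fun i j =>
      ∑ l, (a * k⁻¹ i l) * ((ι (k' l j) - k l j) / (a * π ^ 2))) = E := by
    refine ⟨_, fun i j => ?_, rfl⟩
    rw [Matrix.of_apply]
    refine O'.toSubring.sum_mem fun l _ => O'.mul_mem _ _ (ha (i, l) (Finset.mem_univ _)) ?_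
    have h1 := O'.neg_mem _ (hk' l j)
    rw [← neg_div, neg_sub] at h1
    exact h1
  rw [hEdef] at hkm
  obtain ⟨B, hBdef⟩ : ∃ B, kᵀ * A.map ι * k = B := ⟨_, rfl⟩
  rw [hBdef] at hB ⊢
  have hπ2 : π ^ 2 ∈ O' := by
    rw [pow_two]
    exact O'.mul_mem _ _ hL.pi_mem hL.pi_mem
  refine ⟨Matrix.of k', Eᵀ * B + B * E + π ^ 2 • (Eᵀ * B * E), ?_, ?_, ?_⟩
  · intro h0
    have h1 : ((Matrix.of k').map ι).det = 0 := by
      rw [← RingHom.mapMatrix_apply, ← RingHom.map_det, h0, map_zero]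
    rw [hkm, Matrix.det_mul, mul_eq_zero, or_iff_right hk] at h1
    have h2 := det_cong (O := O') hL (M := 1 + π ^ 2 • E) (N := 1)
      (min_add (fun i j => ?_) (min_smul hπ2 hE)) (fun i j => ?_) (fun i j => ?_)
    · rw [h1, Matrix.det_one, zero_sub, neg_div] at h2
      have h3 := O'.neg_mem _ h2
      rw [neg_neg, one_div] at h3
      exact pinv hL h3
    · rcases eq_or_ne i j with rfl | hij
      · rw [Matrix.one_apply_eq]
        exact O'.one_mem
      · rw [Matrix.one_apply_ne hij]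
        exact O'.zero_mem
    · rcases eq_or_ne i j with rfl | hij
      · rw [Matrix.one_apply_eq]
        exact O'.one_mem
      · rw [Matrix.one_apply_ne hij]
        exact O'.zero_mem
    · rw [Matrix.add_apply, add_sub_cancel_left, Matrix.smul_apply, smul_eq_mul, pow_two,
        mul_assoc, mul_div_cancel_left₀ _ hπ]
      exact O'.mul_mem _ _ hL.pi_mem (hE i j)
  · exact min_add (min_add (min_mul (min_tr hE) hB) (min_mul hB hE))
      (min_smul hπ2 (min_mul (min_mul (min_tr hE) hB) hE))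
  · have h1 : ((Matrix.of k')ᵀ * A * Matrix.of k').map ι =
        ((Matrix.of k').map ι)ᵀ * A.map ι * (Matrix.of k').map ι := by
      rw [Matrix.map_mul, Matrix.map_mul, Matrix.transpose_map]
    rw [h1, hkm, Matrix.transpose_mul]
    have h2 : (1 + π ^ 2 • E)ᵀ * kᵀ * A.map ι * (k * (1 + π ^ 2 • E)) =
        (1 + π ^ 2 • E)ᵀ * (kᵀ * A.map ι * k) * (1 + π ^ 2 • E) := by
      simp only [Matrix.mul_assoc]
    rw [h2, hBdef, Matrix.transpose_add, Matrix.transpose_one, Matrix.transpose_smul]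
    simp only [Matrix.add_mul, Matrix.mul_add, Matrix.one_mul, Matrix.mul_one,
      Matrix.smul_mul, Matrix.mul_smul, smul_add, smul_smul, Matrix.mul_assoc]
    abel

theorem c_int {x y π c : L} {O : ValuationSubring L} (hL : Loc L O π) (h : x = y + π ^ 2 * c)
    (hc : c ∈ O) (hy : y ∈ O) : x ∈ O ∧ (x - y) / π ∈ O ∧ ((x - y) / π) / π ∈ O := by
  have h1 : x - y = π ^ 2 * c := by rw [h, add_sub_cancel_left]
  have h2 : (x - y) / π = π * c := by
    rw [h1, pow_two, mul_assoc, mul_div_cancel_left₀ _ hL.pi_ne]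
  have h3 : π * c ∈ O := O.mul_mem _ _ hL.pi_mem hc
  refine ⟨?_, ?_, ?_⟩
  · rw [h, pow_two, mul_assoc]
    exact O.add_mem _ _ hy (O.mul_mem _ _ hL.pi_mem h3)
  · rw [h2]
    exact h3
  · rw [h2, mul_div_cancel_left₀ _ hL.pi_ne]
    exact hc

theorem sq_cong {O : ValuationSubring L} {π x y : L} (h : (x - y) / π ∈ O)
    (hx : SqQ (O : Set L) π x) : SqQ (O : Set L) π y := by
  obtain ⟨z, hz, hxz⟩ := hx
  refine ⟨z, hz, ?_⟩
  have h1 : (y - z ^ 2) / π = (x - z ^ 2) / π - (x - y) / π := by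
    rw [← sub_div]
    congr 1
    ring
  show (y - z ^ 2) / π ∈ O
  rw [h1]
  exact O.toSubring.sub_mem hxz h

theorem sq_iff (hC : CompP P ϖ L O' ι) (x : K) :
    SqQ (RP K P) (algebraMap R K ϖ) x ↔ SqQ (O' : Set L) (ι (algebraMap R K ϖ)) (ι x) := by
  have hL := hC.loc
  constructor
  · rintro ⟨y, hy, hxy⟩
    refine ⟨ι y, (rp_iff hC y).1 hy, ?_⟩
    rw [div_iff hC, map_sub, map_pow] at hxy
    exact hxy
  · rintro ⟨z, hz, hxz⟩
    obtain ⟨y, hy⟩ := hC.cpl.dense z (ι (algebraMap R K ϖ)) hL.pi_ne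
    have hy1 : ι y ∈ O' := by
      have h1 : ι y = z - (z - ι y) := by ring
      rw [h1]
      exact O'.toSubring.sub_mem hz (div_mem_of hL hy)
    refine ⟨y, (rp_iff hC y).2 hy1, ?_⟩
    rw [div_iff hC, map_sub, map_pow]
    have h2 : (ι x - ι y ^ 2) / ι (algebraMap R K ϖ) =
        (ι x - z ^ 2) / ι (algebraMap R K ϖ) +
          (z - ι y) / ι (algebraMap R K ϖ) * (z + ι y) := by
      rw [div_mul_eq_mul_div, ← add_div]
      congr 1
      ring
    rw [h2]
    exact O'.add_mem _ _ hxz (O'.mul_mem _ _ hy (O'.add_mem _ _ hz hy1))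

theorem gin_of (hC : CompP P ϖ L O' ι) {n : ℕ} {M : Matrix (Fin n) (Fin n) K}
    (h : GIn (O' : Set L) (M.map ι)) : GIn (RP K P) M := by
  refine ⟨fun i j => (rp_iff hC _).2 (h.1 i j), (ui_iff hC _).2 ?_⟩
  have h1 := h.2
  rw [← RingHom.mapMatrix_apply, ← RingHom.map_det] at h1
  exact h1

theorem sd_of (hC : CompP P ϖ L O' ι) {n : ℕ} (A : Matrix (Fin n) (Fin n) K)
    (h : SD (O' : Set L) (A.map ι)) : SD (RP K P) A := by
  obtain ⟨k, hk, hkB, hkd⟩ := h
  obtain ⟨k', C, hk', hCC, he⟩ := approx hC A k hk hkB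
  have hL := hC.loc
  refine ⟨k', hk', gin_of hC ⟨fun i j => ?_, ?_⟩⟩
  · rw [he]
    exact (c_int hL rfl (hCC i j) (hkB i j)).1
  · have h1 : ∀ i j, ((k'ᵀ * A * k').map ι) i j ∈ O' ∧
        (((k'ᵀ * A * k').map ι) i j - (kᵀ * A.map ι * k) i j) / ι (algebraMap R K ϖ) ∈ O' := by
      intro i j
      have h2 := c_int (x := ((k'ᵀ * A * k').map ι) i j) hL (by rw [he]; rfl) (hCC i j)
        (hkB i j)
      exact ⟨h2.1, h2.2.1⟩
    refine ui_cong hL hkd (det_in fun i j => (h1 i j).1) ?_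
    refine det_cong hL hkB (fun i j => (h1 i j).1) fun i j => ?_
    have h3 := O'.neg_mem _ (h1 i j).2
    rw [← neg_div, neg_sub] at h3
    exact h3

theorem blk_in {π : L} {O : ValuationSubring L} (hL : Loc L O π) {m : ℕ}
    {B : Matrix (Fin (m + 1)) (Fin (m + 1)) L} (h : BlkQ (O : Set L) π B) :
    MIn (O : Set L) B := by
  obtain ⟨h1, h2, h3, -⟩ := h
  intro i j
  refine Fin.cases ?_ (fun i => ?_) i
  · refine Fin.cases ?_ (fun j => ?_) j
    · exact h1.2.1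
    · exact div_mem_of hL (h2 j).1
  · refine Fin.cases ?_ (fun j => ?_) j
    · exact div_mem_of hL (h2 i).2
    · exact div_mem_of hL (h3 i j)

theorem blk_of (hC : CompP P ϖ L O' ι) {m : ℕ} (A : Matrix (Fin (m + 1)) (Fin (m + 1)) K)
    (k : Matrix (Fin (m + 1)) (Fin (m + 1)) L) (hk : k.det ≠ 0)
    (hB : BlkQ (O' : Set L) (ι (algebraMap R K ϖ)) (kᵀ * A.map ι * k)) :
    ∃ k' : Matrix (Fin (m + 1)) (Fin (m + 1)) K, k'.det ≠ 0 ∧
      BlkQ (RP K P) (algebraMap R K ϖ) (k'ᵀ * A * k') ∧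
      (dsc (ι (algebraMap R K ϖ)) (kᵀ * A.map ι * k) -
        ι (dsc (algebraMap R K ϖ) (k'ᵀ * A * k'))) / ι (algebraMap R K ϖ) ∈ O' := by
  have hL := hC.loc
  obtain ⟨k', C, hk', hCC, he⟩ := approx hC A k hk (blk_in hL hB)
  obtain ⟨B, hBdef⟩ : ∃ B, kᵀ * A.map ι * k = B := ⟨_, rfl⟩
  obtain ⟨M, hMdef⟩ : ∃ M, k'ᵀ * A * k' = M := ⟨_, rfl⟩
  have hBin := blk_in hL hB
  rw [hBdef] at hB he hBin ⊢
  rw [hMdef] at he
  have h1 : ∀ i j, ι (M i j) ∈ O' ∧ (ι (M i j) - B i j) / ι (algebraMap R K ϖ) ∈ O' ∧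
      ((ι (M i j) - B i j) / ι (algebraMap R K ϖ)) / ι (algebraMap R K ϖ) ∈ O' := by
    intro i j
    refine c_int hL ?_ (hCC i j) (hBin i j)
    have h2 := congrFun (congrFun he i) j
    rw [Matrix.map_apply] at h2
    rw [h2]
    rfl
  have h2 : ∀ i j, B i j / ι (algebraMap R K ϖ) ∈ O' →
      ι (M i j) / ι (algebraMap R K ϖ) ∈ O' := by
    intro i j hij
    have h3 : ι (M i j) / ι (algebraMap R K ϖ) =
        (ι (M i j) - B i j) / ι (algebraMap R K ϖ) + B i j / ι (algebraMap R K ϖ) := by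
      rw [← add_div, sub_add_cancel]
    rw [h3]
    exact O'.add_mem _ _ (h1 i j).2.1 hij
  obtain ⟨hB1, hB2, hB3, hB4⟩ := hB
  obtain ⟨M2, hM2⟩ : ∃ M2 : Matrix (Fin m) (Fin m) K,
      (Matrix.of fun i j : Fin m => M i.succ j.succ / algebraMap R K ϖ) = M2 := ⟨_, rfl⟩
  obtain ⟨B2, hB2'⟩ : ∃ B2 : Matrix (Fin m) (Fin m) L,
      (Matrix.of fun i j : Fin m => B i.succ j.succ / ι (algebraMap R K ϖ)) = B2 := ⟨_, rfl⟩
  have hd1 : dsc (ι (algebraMap R K ϖ)) B = B2.det := by rw [← hB2']; rfl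
  have hd2 : dsc (algebraMap R K ϖ) M = M2.det := by rw [← hM2]; rfl
  have hBe : ∀ i j, B2 i j = B i.succ j.succ / ι (algebraMap R K ϖ) := by
    intro i j
    rw [← hB2']
    rfl
  have hMe : ∀ i j, ι (M2 i j) = ι (M i.succ j.succ) / ι (algebraMap R K ϖ) := by
    intro i j
    rw [← hM2, Matrix.of_apply, map_div₀]
  have hBI : MIn (O' : Set L) B2 := by
    intro i j
    rw [hBe]
    exact hB3 i j
  have hMI : MIn (O' : Set L) (M2.map ι) := by
    intro i j
    rw [Matrix.map_apply, hMe]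
    exact h2 _ _ (hB3 i j)
  have hc : (B2.det - ι M2.det) / ι (algebraMap R K ϖ) ∈ O' := by
    rw [RingHom.map_det, RingHom.mapMatrix_apply]
    refine det_cong hL hBI hMI fun i j => ?_
    rw [Matrix.map_apply, hBe, hMe, ← sub_div]
    have h3 := O'.neg_mem _ (h1 i.succ j.succ).2.2
    rw [← neg_div, ← neg_div, neg_sub] at h3
    exact h3
  refine ⟨k', hk', ?_, ?_⟩
  · rw [hMdef]
    refine ⟨(ui_iff hC _).2 (ui_cong hL hB1 (h1 0 0).1 ?_), fun j => ⟨?_, ?_⟩,
      fun i j => ?_, ?_⟩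
    · have h3 := O'.neg_mem _ (h1 0 0).2.1
      rw [← neg_div, neg_sub] at h3
      exact h3
    · rw [div_iff hC]
      exact h2 _ _ (hB2 j).1
    · rw [div_iff hC]
      exact h2 _ _ (hB2 j).2
    · rw [div_iff hC]
      exact h2 _ _ (hB3 i j)
    · rw [hM2, ui_iff hC]
      rw [hB2'] at hB4
      refine ui_cong hL hB4 ?_ hc
      rw [RingHom.map_det, RingHom.mapMatrix_apply]
      exact det_in hMI
  · rw [hMdef, hd1, hd2]
    exact hc

end Main

end QSKa

/-- **QSK.** -/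
theorem qsk : QSKStmt := by
  intro R _ _ K _ _ _ P ϖ L _ O' ι hC
  have hL := hC.loc
  refine ⟨?_, ?_, fun g A _ => ⟨QSKa.sd_of hC A, fun k hk hB => ?_⟩⟩
  · refine (hC.mem ϖ).1 ?_
    rw [div_self hL.pi_ne]
    exact O'.one_mem
  · intro h
    have h1 : ∀ x ∈ P.asIdeal ^ 2,
        ι (algebraMap R K x) / ι (algebraMap R K ϖ) / ι (algebraMap R K ϖ) ∈ O' := by
      intro x hx
      rw [pow_two] at hx
      refine Submodule.mul_induction_on hx ?_ ?_
      · intro a ha b hb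
        have h2 : ι (algebraMap R K (a * b)) / ι (algebraMap R K ϖ) / ι (algebraMap R K ϖ) =
            ι (algebraMap R K a) / ι (algebraMap R K ϖ) *
              (ι (algebraMap R K b) / ι (algebraMap R K ϖ)) := by
          rw [map_mul, map_mul]
          ring
        rw [h2]
        exact O'.mul_mem _ _ ((hC.mem a).2 ha) ((hC.mem b).2 hb)
      · intro a b ha hb
        rw [map_add, map_add, add_div, add_div]
        exact O'.add_mem _ _ ha hb
    have h2 := h1 ϖ h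
    rw [div_self hL.pi_ne, one_div] at h2
    exact QSKa.pinv hL h2
  · obtain ⟨k', hk', hb, hd⟩ := QSKa.blk_of hC A k hk hB
    refine ⟨k', hk', hb, ?_⟩
    rw [QSKa.sq_iff hC, map_mul, map_pow, map_neg, map_one]
    have hs : (-1 : L) ^ g ∈ O' := by
      rcases neg_one_pow_eq_or L g with h | h
      · rw [h]
        exact O'.one_mem
      · rw [h]
        exact O'.neg_mem _ O'.one_mem
    have h1 : ((-1 : L) ^ g * dsc (ι (algebraMap R K ϖ)) (kᵀ * A.map ι * k) -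
        (-1) ^ g * ι (dsc (algebraMap R K ϖ) (k'ᵀ * A * k'))) / ι (algebraMap R K ϖ) ∈ O' := by
      rw [← mul_sub, mul_div_assoc]
      exact O'.mul_mem _ _ hs hd
    refine ⟨QSKa.sq_cong ?_, QSKa.sq_cong h1⟩
    have h3 := O'.neg_mem _ h1
    rw [← neg_div, neg_sub] at h3
    exact h3

end Pool.T1
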